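import Pool.Agent.Q154.War.AlmostAll

/-!
# The Waring problem with almost all shifts: almost all integers need only `k + 1` variables

Let `k ≥ 3`, `j ≥ 0` with `2 ^ j ≤ k`, and `ε > 0`. For Lebesgue-almost every vector of shifts
`(α₁, …, αₙ) ∈ [0, 1]ⁿ`, `n = k + 1 + j`, all but `O (X ^ (1 - 2 ^ j / k + ε))` integers `N ≤ X` are
integer parts of `(x₁ + α₁)^k + ⋯ + (xₙ + αₙ)^k` with positive integers `x₁, …, xₙ`, in at least
`c N ^ (n / k - 1)` ways (the expected order of magnitude), where `c > 0` does not depend on the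
shifts. With `j = 0`: `k + 1` variables, and `O (X ^ (1 - 1 / k + ε))` exceptions.
-/

set_option autoImplicit false

namespace Pool.Agent.Results.MP_45c923_nt.AlmostAllIntegersShifts

open MeasureTheory Pool.Agent.Q154.War

theorem result (k j : ℕ) (hk : 3 ≤ k) (hj : 2 ^ j ≤ k) (ε : ℝ) (hε : 0 < ε) :
    ∃ c : ℝ, 0 < c ∧ ∀ᵐ α : Fin (k + 1 + j) → ℝ, (∀ i, α i ∈ Set.Icc (0 : ℝ) 1) →
      ∃ C : ℝ, ∀ X : ℝ, 1 ≤ X →
        ({N : ℕ | (N : ℝ) ≤ X ∧
          ({x : Fin (k + 1 + j) → ℕ | (∀ i, 0 < x i) ∧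
            ⌊∑ i, ((x i : ℝ) + α i) ^ k⌋ = (N : ℤ)}.ncard : ℝ) <
              c * (N : ℝ) ^ (((k + 1 + j : ℕ) : ℝ) / k - 1)}.ncard : ℝ) ≤
          C * X ^ (1 - 2 ^ j / (k : ℝ) + ε) :=
  almost_all hk hj hε

end Pool.Agent.Results.MP_45c923_nt.AlmostAllIntegersShifts
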