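import Mathlib
import Pool.Agent.Q83.WG.AC
import Pool.Agent.Q83.WG.Pr

/-!
# Waring's problem with generic coefficients: `k+1` powers (of primes) for almost all integers
-/

set_option autoImplicit false

open MeasureTheory Filter
open scoped ENNReal

namespace Pool.Agent.Results.MP_45c923_nt.AlmostAllTargets

/-- At least `m` tuples of primes `p` satisfy `|a_1 p_1^(k_1) + ... + a_s p_s^(k_s) - N| ≤ r`. -/
def ManyPrimeSolutions {s : ℕ} (a k : Fin s → ℝ) (N r m : ℝ) : Prop :=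
  ∃ T : Finset (Fin s → ℕ), m ≤ (T.card : ℝ) ∧
    ∀ p ∈ T, (∀ i, (p i).Prime) ∧ |∑ i, a i * (p i : ℝ) ^ k i - N| ≤ r

/-- The integers `Y ≤ N ≤ 2Y` which are not the integer part of `a_1 p_1^k + ... + a_s p_s^k` for
any primes `p_1, ..., p_s`. -/
def Exceptional {s : ℕ} (a : Fin s → ℝ) (k : ℕ) (Y : ℝ) : Set ℕ :=
  {N : ℕ | (Y ≤ N ∧ (N : ℝ) ≤ 2 * Y) ∧
    ¬ ∃ p : Fin s → ℕ, (∀ i, (p i).Prime) ∧ ⌊∑ i, a i * (p i : ℝ) ^ k⌋ = (N : ℤ)}

/-- from a bound for the measure of bad real targets to a bound for the number of bad integers -/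
lemma count {s : ℕ} (a : Fin s → ℝ) (k : ℕ) (Y z m g : ℝ) (hY : 0 < Y) (hz : 0 ≤ z)
    (hg : ∀ N : ℝ, Y ≤ N → N ^ (-g) ≤ 1 / 8)
    (hm : ∀ N : ℝ, Y ≤ N → 0 < N ^ m)
    (h1 : volume {N : ℝ | (Y ≤ N ∧ N ≤ 2 * Y) ∧
      ¬ ManyPrimeSolutions a (fun _ => (k : ℝ)) N (N ^ (-g)) (N ^ m)} ≤ ENNReal.ofReal z)
    (h2 : volume {N : ℝ | (2 * Y ≤ N ∧ N ≤ 2 * (2 * Y)) ∧
      ¬ ManyPrimeSolutions a (fun _ => (k : ℝ)) N (N ^ (-g)) (N ^ m)} ≤ ENNReal.ofReal z)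
    (hY1 : 1 ≤ Y) :
    ((Exceptional a k Y).ncard : ℝ) ≤ 4 * z := by
  classical
  have hfin : (Exceptional a k Y).Finite := by
    refine (Set.finite_Iic ⌊2 * Y⌋₊).subset ?_
    rintro N ⟨⟨_, hN⟩, _⟩
    exact Nat.le_floor hN
  obtain ⟨E, hE⟩ := hfin.exists_finset_coe
  rw [← hE, Set.ncard_coe_finset]
  -- the intervals
  have hsub : (⋃ N ∈ E, Set.Icc ((N : ℝ) + 1 / 4) (N + 3 / 4)) ⊆
      {N : ℝ | (Y ≤ N ∧ N ≤ 2 * Y) ∧
        ¬ ManyPrimeSolutions a (fun _ => (k : ℝ)) N (N ^ (-g)) (N ^ m)} ∪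
      {N : ℝ | (2 * Y ≤ N ∧ N ≤ 2 * (2 * Y)) ∧
        ¬ ManyPrimeSolutions a (fun _ => (k : ℝ)) N (N ^ (-g)) (N ^ m)} := by
    intro x hx
    simp only [Set.mem_iUnion] at hx
    obtain ⟨N, hN, hx1, hx2⟩ := hx
    have hNE : N ∈ Exceptional a k Y := by rw [← hE]; exact_mod_cast hN
    obtain ⟨⟨hN1, hN2⟩, hN3⟩ := hNE
    have hxY : Y ≤ x := by linarith
    have hbad : ¬ ManyPrimeSolutions a (fun _ => (k : ℝ)) x (x ^ (-g)) (x ^ m) := by
      rintro ⟨T, hT1, hT2⟩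
      have hT0 : (0 : ℝ) < T.card := lt_of_lt_of_le (hm x hxY) hT1
      obtain ⟨p, hp⟩ : T.Nonempty := Finset.card_pos.mp (by exact_mod_cast hT0)
      obtain ⟨hp1, hp2⟩ := hT2 p hp
      refine hN3 ⟨p, hp1, ?_⟩
      have e1 : ∑ i, a i * (p i : ℝ) ^ (k : ℝ) = ∑ i, a i * (p i : ℝ) ^ k :=
        Finset.sum_congr rfl fun i _ => by rw [Real.rpow_natCast]
      rw [e1] at hp2
      have hp3 := abs_le.mp (hp2.trans (hg x hxY))
      rw [Int.floor_eq_iff]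
      push_cast
      constructor <;> linarith [hp3.1, hp3.2]
    rcases le_or_gt x (2 * Y) with h | h
    · exact Or.inl ⟨⟨hxY, h⟩, hbad⟩
    · exact Or.inr ⟨⟨h.le, by linarith⟩, hbad⟩
  have hdis : volume (⋃ N ∈ E, Set.Icc ((N : ℝ) + 1 / 4) (N + 3 / 4)) =
      ENNReal.ofReal ((E.card : ℝ) * (1 / 2)) := by
    rw [measure_biUnion_finset]
    · rw [Finset.sum_congr rfl (fun N _ => Real.volume_Icc)]
      rw [ENNReal.ofReal_mul (by positivity), ENNReal.ofReal_natCast, ← nsmul_eq_mul,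
        ← Finset.sum_const]
      refine Finset.sum_congr rfl fun N _ => ?_
      congr 1
      ring
    · intro N hN M hM hNM
      rw [Function.onFun, Set.disjoint_left]
      intro x hx1 hx2
      rcases lt_or_gt_of_ne hNM with h | h
      · have : (N : ℝ) + 1 ≤ M := by exact_mod_cast h
        linarith [hx1.2, hx2.1]
      · have : (M : ℝ) + 1 ≤ N := by exact_mod_cast h
        linarith [hx1.1, hx2.2]
    · intro N _
      exact measurableSet_Icc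
  have h3 := (measure_mono hsub).trans ((measure_union_le _ _).trans (add_le_add h1 h2))
  rw [hdis, ← ENNReal.ofReal_add hz hz, ENNReal.ofReal_le_ofReal_iff (by positivity)] at h3
  linarith

/-- (1) Let `k_1, ..., k_s ≥ 1` be real, `q = 1/k_1 + ... + 1/k_s > 1` and `2/k_i < q` for all `i`. For
almost all positive `a_1, ..., a_s`, all `g ≥ 0`, `ε > 0` and all large `Y`, the set of real
`N ∈ [Y, 2Y]` for which `|a_1 p_1^(k_1) + ... + a_s p_s^(k_s) - N| ≤ N^(-g)` has fewer than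
`N^(q-1-g-ε)` solutions in primes has measure at most `Y^(2+g-q+ε)`. (2) For all `k ≥ 2`,
`s ≥ k+1` and almost all positive `a_1, ..., a_s`: for every `ε > 0` and all large `Y` at most
`Y^(2-s/k+ε)` integers `N ∈ [Y, 2Y]` are not the integer part of a number
`a_1 p_1^k + ... + a_s p_s^k` with primes `p_i`. -/
theorem result :
    (∀ (s : ℕ) (k : Fin s → ℝ), (∀ i, 1 ≤ k i) → 1 < ∑ i, (k i)⁻¹ →
      (∀ i, 2 * (k i)⁻¹ < ∑ j, (k j)⁻¹) →
      ∀ᵐ a : Fin s → ℝ, (∀ i, 0 < a i) →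
        ∀ g : ℝ, 0 ≤ g → ∀ ε : ℝ, 0 < ε → ∀ᶠ Y : ℝ in atTop,
          volume {N : ℝ | (Y ≤ N ∧ N ≤ 2 * Y) ∧
            ¬ ManyPrimeSolutions a k N (N ^ (-g)) (N ^ ((∑ i, (k i)⁻¹) - 1 - g - ε))} ≤
          ENNReal.ofReal (Y ^ (2 + g - (∑ i, (k i)⁻¹) + ε))) ∧
    (∀ k s : ℕ, 2 ≤ k → k + 1 ≤ s →
      ∀ᵐ a : Fin s → ℝ, (∀ i, 0 < a i) →
        ∀ ε : ℝ, 0 < ε → ∀ᶠ Y : ℝ in atTop,
          ((Exceptional a k Y).ncard : ℝ) ≤ Y ^ (2 - (s : ℝ) / k + ε)) := by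
  have main : ∀ (s : ℕ) (k : Fin s → ℝ), (∀ i, 1 ≤ k i) → 1 < ∑ i, (k i)⁻¹ →
      (∀ i, 2 * (k i)⁻¹ < ∑ j, (k j)⁻¹) →
      ∀ᵐ a : Fin s → ℝ, (∀ i, 0 < a i) →
        ∀ g : ℝ, 0 ≤ g → ∀ ε : ℝ, 0 < ε → ∀ᶠ Y : ℝ in atTop,
          volume {N : ℝ | (Y ≤ N ∧ N ≤ 2 * Y) ∧
            ¬ ManyPrimeSolutions a k N (N ^ (-g)) (N ^ ((∑ i, (k i)⁻¹) - 1 - g - ε))} ≤
          ENNReal.ofReal (Y ^ (2 + g - (∑ i, (k i)⁻¹) + ε)) := by
    intro s k hk hsum hmax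
    filter_upwards [Pool.Agent.Q83.WG.coef_aa_main (fun _ => {p : ℕ | p.Prime})
      (fun _ => Pool.Agent.Q83.WG.dense_primes) k hk hsum hmax] with a ha hpos g hg ε hε
    filter_upwards [ha hpos g hg ε hε] with Y hY
    refine (measure_mono ?_).trans hY
    rintro N ⟨hN, hbad⟩
    refine ⟨hN, fun hr => hbad ?_⟩
    obtain ⟨T, h1, h2⟩ := hr
    exact ⟨T, h1, fun x hx => ⟨fun i => ((h2 x hx).1 i).1, (h2 x hx).2⟩⟩
  refine ⟨main, ?_⟩
  intro k s hk hs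
  have hk0 : (0 : ℝ) < k := by exact_mod_cast (by omega : 0 < k)
  have hk1 : (1 : ℝ) ≤ k := by exact_mod_cast (by omega : 1 ≤ k)
  have hq : ∑ _i : Fin s, ((k : ℝ))⁻¹ = (s : ℝ) / k := by
    rw [Finset.sum_const, Finset.card_univ, Fintype.card_fin, nsmul_eq_mul, ← div_eq_mul_inv]
  have hsr : (k : ℝ) + 1 ≤ s := by exact_mod_cast hs
  have h3s : (3 : ℝ) ≤ s := by exact_mod_cast (by omega : 3 ≤ s)
  filter_upwards [main s (fun _ => (k : ℝ)) (fun _ => hk1)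
    (by rw [hq, lt_div_iff₀ hk0]; linarith)
    (fun _ => by
      rw [hq, ← div_eq_mul_inv]
      exact div_lt_div_of_pos_right (by linarith) hk0)] with a ha hpos ε hε
  have h1 := ha hpos (ε / 4) (by positivity) (ε / 4) (by positivity)
  rw [hq] at h1
  set z : ℝ := 2 + ε / 4 - (s : ℝ) / k + ε / 4 with hz
  have h2 : Tendsto (fun Y : ℝ => 2 * Y) atTop atTop := tendsto_id.const_mul_atTop (by norm_num)
  have h3 : ∀ᶠ N : ℝ in atTop, N ^ (-(ε / 4)) ≤ 1 / 8 :=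
    (tendsto_rpow_neg_atTop (by positivity)).eventually (ge_mem_nhds (by norm_num))
  obtain ⟨N0, hN0⟩ := eventually_atTop.mp h3
  have h4 : ∀ᶠ Y : ℝ in atTop, 4 * (1 + 2 ^ z) ≤ Y ^ (ε / 2) :=
    (tendsto_rpow_atTop (by positivity)).eventually_ge_atTop _
  filter_upwards [h1, h2.eventually h1, h4, eventually_ge_atTop (max N0 1)] with Y g1 g2 g4 g5
  have hY0 : N0 ≤ Y := (le_max_left _ _).trans g5
  have hY1 : 1 ≤ Y := (le_max_right _ _).trans g5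
  have hYpos : 0 < Y := by linarith
  have e1 : Y ^ z ≤ (1 + 2 ^ z) * Y ^ z := by
    have : 0 < Y ^ z := by positivity
    have : (0 : ℝ) < 2 ^ z := by positivity
    nlinarith
  have e2 : (2 * Y) ^ z ≤ (1 + 2 ^ z) * Y ^ z := by
    rw [Real.mul_rpow (by norm_num) hYpos.le]
    have : 0 < Y ^ z := by positivity
    nlinarith
  have h5 := count a k Y ((1 + 2 ^ z) * Y ^ z) ((s : ℝ) / k - 1 - ε / 4 - ε / 4) (ε / 4) hYpos
    (by positivity) (fun N hN => hN0 N (hY0.trans hN))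
    (fun N hN => Real.rpow_pos_of_pos (by linarith) _)
    (g1.trans (ENNReal.ofReal_le_ofReal e1)) (g2.trans (ENNReal.ofReal_le_ofReal e2)) hY1
  refine h5.trans ?_
  have e3 : Y ^ (2 - (s : ℝ) / k + ε) = Y ^ (ε / 2) * Y ^ z := by
    rw [← Real.rpow_add hYpos]
    congr 1
    rw [hz]
    ring
  rw [e3, ← mul_assoc]
  exact mul_le_mul_of_nonneg_right g4 (by positivity)

end Pool.Agent.Results.MP_45c923_nt.AlmostAllTargets
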