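import Pool.Agent.Q138.PS.XR
import Pool.Agent.Results.MP_45c923_nt.AlmostAllTargets

/-!
# Powers of real numbers as values of additive forms with generic coefficients at primes

Let `k_1, ..., k_s ≥ 1` be real, `q = 1/k_1 + ... + 1/k_s > 1` and `2/k_i < q` for all `i` (for example `s = k + 1` exponents
equal to `k ≥ 2`). For almost all positive `a_1, ..., a_s` and almost every real `α > 1`, for all positive algebraic numbers
`c`, all integers `j`, all `0 ≤ g < q - 1`, `ε > 0` and all large `n`, with `N = c n ^ j α ^ n`: the inequality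
`|a_1 p_1^(k_1) + ... + a_s p_s^(k_s) - N| ≤ N ^ (-g)` has at least `N ^ (q - 1 - g - ε)` solutions in primes.
-/

set_option autoImplicit false

namespace Pool.Agent.Results.MP_45c923_nt.PowersAsTargets

open Filter Topology MeasureTheory
open Pool.Agent.Q138.PS
open AlmostAllTargets (ManyPrimeSolutions)

/-- for all `0 ≤ g < q - 1`, `q = ∑ 1 / k i`, all `ε > 0`, all positive algebraic numbers `c`, all integers `j` and all large `n`,
with `N = c n ^ j α ^ n`: at least `N ^ (q - 1 - g - ε)` tuples of primes satisfy `|∑ a_i p_i ^ (k_i) - N| ≤ N ^ (-g)` -/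
def AllPowers {s : ℕ} (a k : Fin s → ℝ) (α : ℝ) : Prop :=
  ∀ g ε : ℝ, 0 ≤ g → g < (∑ i, (k i)⁻¹) - 1 → 0 < ε → ∀ c : ℝ, 0 < c → IsAlgebraic ℚ c → ∀ j : ℤ, ∀ᶠ n : ℕ in atTop,
    ManyPrimeSolutions a k (c * (n : ℝ) ^ j * α ^ n) ((c * (n : ℝ) ^ j * α ^ n) ^ (-g))
      ((c * (n : ℝ) ^ j * α ^ n) ^ ((∑ i, (k i)⁻¹) - 1 - g - ε))

/-- **Theorem.** -/
theorem result (s : ℕ) (k : Fin s → ℝ) (hk : ∀ i, 1 ≤ k i) (hq : 1 < ∑ i, (k i)⁻¹)
    (hmax : ∀ i, 2 * (k i)⁻¹ < ∑ j, (k j)⁻¹) :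
    ∀ᵐ a : Fin s → ℝ, (∀ i, 0 < a i) → ∀ᵐ α : ℝ, 1 < α → AllPowers a k α := by
  set q : ℝ := ∑ i, (k i)⁻¹ with hqdef
  filter_upwards [AlmostAllTargets.result.1 s k hk hq hmax] with a ha hpos
  have h0 := pow_ae_target (ι := ℚ × ℚ)
    (fun i => {N : ℝ | ¬ ManyPrimeSolutions a k N (N ^ (-(i.1 : ℝ))) (N ^ (q - 1 - i.1 - i.2))})
  filter_upwards [h0] with α h1 hα g ε hg0 hg hε c hc hca j
  set d : ℝ := min (q - 1 - g) ε with hd
  have hd0 : 0 < d := lt_min (by linarith) hε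
  obtain ⟨g', hg1, hg2⟩ := exists_rat_btwn (show g < g + d / 4 by linarith)
  obtain ⟨e, he1, he2⟩ := exists_rat_btwn (show d / 4 < d / 2 by linarith)
  have hd1 : d ≤ q - 1 - g := min_le_left _ _
  have hd2 : d ≤ ε := min_le_right _ _
  have h2 := h1 hα (g', e) ⟨1, q - 1 - g' - e, zero_le_one, by linarith, by
    filter_upwards [ha hpos g' (hg0.trans hg1.le) e (by linarith)] with Y hY
    refine le_trans (le_of_eq ?_) (hY.trans (ENNReal.ofReal_le_ofReal (le_of_eq ?_)))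
    · rfl
    · rw [one_mul]
      congr 1
      ring⟩ c hc hca j
  filter_upwards [h2, (grow hα hc j).eventually_ge_atTop 1] with n h3 h4
  simp only [not_not] at h3
  obtain ⟨T, hT1, hT2⟩ := h3
  refine ⟨T, le_trans (Real.rpow_le_rpow_of_exponent_le h4 (by linarith)) hT1, fun p hp => ⟨(hT2 p hp).1,
    (hT2 p hp).2.trans (Real.rpow_le_rpow_of_exponent_le h4 (by linarith))⟩⟩

end Pool.Agent.Results.MP_45c923_nt.PowersAsTargets
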