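import Pool.Agent.Q84.NX.Win
import Pool.Agent.Q84.NX.Dy2
import Pool.Agent.Results.MP_45c923_nt.AlmostAllTargets

/-!
# Values of additive forms with generic coefficients at primes, near the multiples of the primes of a string

Let `k ≥ 2` and `s ≥ k + 1`. For almost all positive `(a_1, ..., a_s)`: for all `κ > 0` and `m` there is `c' > 0` and for
every `Z` a number `D` with the following property. For every large `X` there is a set `S` of at most
`(log X) ^ (49 / 50)` primes, all larger than `Z`, such that for EVERY function `f` with values `1` and `-1` on the primes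
at least `X ^ (1 - κ)` integers `r`, `X < r ≤ 3X`, satisfy: the interval `[r, r + D]` contains at least `m` primes, and
for every prime `p` in it

* the Legendre symbol `(p / q)` is `f q` for all odd primes `q ≤ c' log X` outside `S`;
* EVERY integer `b` within `p ^ (1 / (16 k))` of a multiple `l p`, `1 ≤ l ≤ p ^ (1 / (16 k))`, is the integer part of
  `a_1 p_1^k + ... + a_s p_s^k` for some primes `p_1, ..., p_s`.

Method: `AlmostAllTargets` (this row) bounds the number of the integers which are not such integer parts; few primes have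
one of them near one of their small multiples (`Q84/NX/Win`); the Maynard-Tao theorem relative to a modulus which is a
small power of `X`, in the form that it avoids arbitrary exceptional sets of size `X ^ (1 - η)` (`Q84/MB/E1-E4`), gives
the strings.
-/

set_option autoImplicit false

open scoped Classical

namespace Pool.Agent.Results.MP_45c923_nt.StringsNearMultiples

open Finset Filter MeasureTheory

/-- `b` is the integer part of `a_1 p_1^k + ... + a_s p_s^k` for some primes `p_1, ..., p_s` -/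
def Rep {s : ℕ} (a : Fin s → ℝ) (k b : ℕ) : Prop :=
  ∃ p : Fin s → ℕ, (∀ i, (p i).Prime) ∧ ⌊∑ i, a i * (p i : ℝ) ^ k⌋ = (b : ℤ)

/-- every integer `b` within `p ^ c` of a multiple `l p`, `1 ≤ l ≤ p ^ c`, is such an integer part -/
def Fine {s : ℕ} (a : Fin s → ℝ) (k : ℕ) (c : ℝ) (p : ℕ) : Prop :=
  ∀ l b : ℕ, 1 ≤ l → (l : ℝ) ≤ (p : ℝ) ^ c → |(b : ℝ) - l * p| ≤ (p : ℝ) ^ c → Rep a k b

/-- **Theorem.** -/
theorem result (k s : ℕ) (hk : 2 ≤ k) (hs : k + 1 ≤ s) : ∀ᵐ a : Fin s → ℝ, (∀ i, 0 < a i) →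
    ∀ κ : ℝ, 0 < κ → ∀ m : ℕ, ∃ c' : ℝ, 0 < c' ∧
    ∀ Z : ℕ, ∃ D : ℕ, ∃ X₀ : ℝ, ∀ X : ℝ, X₀ ≤ X →
    ∃ S : Finset ℕ, (∀ q ∈ S, q.Prime ∧ Z < q) ∧ (S.card : ℝ) ≤ (Real.log X) ^ (49 / 50 : ℝ) ∧
    ∀ f : ℕ → ℤ, (∀ q, f q = 1 ∨ f q = -1) →
      X ^ (1 - κ) ≤ (((Icc 1 ⌊3 * X⌋₊).filter fun r : ℕ => X < r ∧
        m ≤ ((Icc r (r + D)).filter Nat.Prime).card ∧
        ∀ p ∈ Icc r (r + D), p.Prime → Fine a k (1 / (16 * k)) p ∧
          ∀ q : ℕ, q.Prime → q ≠ 2 → (q : ℝ) ≤ c' * Real.log X → q ∉ S → jacobiSym p q = f q).card : ℝ) := by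
  have hk2 : (2 : ℝ) ≤ k := by exact_mod_cast hk
  have hk0 : (0 : ℝ) < k := by linarith
  obtain ⟨δ, hδ⟩ : ∃ δ : ℝ, δ = 1 / (2 * k) := ⟨_, rfl⟩
  have hδ0 : 0 < δ := by rw [hδ]; positivity
  have hδ4 : δ ≤ 1 / 4 := by
    rw [hδ, div_le_div_iff₀ (by positivity) (by norm_num)]
    linarith
  have h8 : (1 : ℝ) / (16 * k) = δ / 8 := by
    rw [hδ]
    field_simp
    ring
  filter_upwards [AlmostAllTargets.result.2 k s hk hs] with a ha hpos κ hκ m
  have ha1 := ha hpos δ hδ0
  rw [eventually_atTop] at ha1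
  obtain ⟨Y₀, hY₀⟩ := ha1
  have hexp : 2 - (s : ℝ) / k + δ ≤ 1 - δ := by
    have h1 : (k : ℝ) + 1 ≤ s := by exact_mod_cast hs
    have h2 : 1 + 1 / (k : ℝ) ≤ s / k := by
      rw [le_div_iff₀ hk0, add_mul, one_mul, one_div, inv_mul_cancel₀ hk0.ne']
      exact h1
    have h3 : 1 / (k : ℝ) = 2 * δ := by
      rw [hδ]
      field_simp
    linarith
  obtain ⟨C, hC⟩ := Pool.Agent.Q84.NX.dyadic' (fun b => ¬ Rep a k b) δ (by linarith) (max Y₀ 1) (by
    intro K hK
    have hK1 : (1 : ℝ) ≤ K := (le_max_right _ _).trans hK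
    have h1 := hY₀ K ((le_max_left _ _).trans hK)
    have hfin : (AlmostAllTargets.Exceptional a k (K : ℝ)).Finite := by
      refine (Set.finite_Iic ⌊2 * (K : ℝ)⌋₊).subset ?_
      rintro N ⟨⟨_, hN⟩, _⟩
      exact Nat.le_floor hN
    have h2 : (((Ioc K (2 * K)).filter fun b => ¬ Rep a k b).card : ℝ) ≤
        ((AlmostAllTargets.Exceptional a k (K : ℝ)).ncard : ℝ) := by
      rw [Nat.cast_le, ← Set.ncard_coe_finset]
      refine Set.ncard_le_ncard ?_ hfin
      intro b hb
      rw [mem_coe, mem_filter, mem_Ioc] at hb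
      refine ⟨⟨by exact_mod_cast hb.1.1.le, by exact_mod_cast hb.1.2⟩, hb.2⟩
    refine le_trans (le_of_eq ?_) (h2.trans (h1.trans (Real.rpow_le_rpow_of_exponent_le hK1 hexp)))
    congr!)
  have hbad := Pool.Agent.Q84.NX.win_bad (fun b => ¬ Rep a k b) C δ hδ0 (by linarith) hC (δ / 8) (by positivity) le_rfl
  have hF : ∀ p : ℕ, Pool.Agent.Q84.NX.WinFine (fun b => ¬ Rep a k b) (δ / 8) p ↔ Fine a k (1 / (16 * k)) p := by
    intro p
    rw [h8]
    unfold Pool.Agent.Q84.NX.WinFine Fine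
    constructor
    · intro h l b h1 h2 h3
      by_contra hcon
      exact h l b h1 h2 h3 hcon
    · intro h l b h1 h2 h3 hcon
      exact hcon (h l b h1 h2 h3)
  simp only [hF] at hbad
  exact Pool.Agent.Q84.NX.strings_of (Fine a k (1 / (16 * k))) (δ / 2) (by positivity) hbad κ hκ m

end Pool.Agent.Results.MP_45c923_nt.StringsNearMultiples
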